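import Pool.Agent.H80Band.Induct
import Pool.Agent.Helper62.AS.IndStmt

set_option autoImplicit false

namespace Pool.Agent.H80Band

open Real Filter Topology Finset Pool.Agent.H54Sharp Pool.Agent.Helper62.AS

theorem ind80 : Ind := by
  intro L0 R0 hL0 hLe hRe hR0 hT J hJ Lz Rz Z q r hq hr y C l δ hC hl hδ
  obtain ⟨J', rfl⟩ : ∃ J', J = J' + 1 := ⟨J - 1, by omega⟩
  have hLR : L0 < R0 := hLe.trans hRe
  have hJ' : (0 : ℝ) < ((J' + 1 : ℕ) : ℝ) := by positivity
  have hd0 : 0 < (R0 - L0) / ((J' + 1 : ℕ) : ℝ) := div_pos (by linarith) hJ'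
  set d : ℝ := min δ ((R0 - L0) / ((J' + 1 : ℕ) : ℝ) / 4) with hd
  have hdpos : 0 < d := lt_min hδ (by linarith)
  have hd1 : d ≤ δ := min_le_left _ _
  have hd2 : d ≤ (R0 - L0) / ((J' + 1 : ℕ) : ℝ) / 4 := min_le_right _ _
  filter_upwards [part_exist hL0 hLR hR0 hJ Z.L0 Z.R0 Z.T_eq Z.diff Z.mono Z.anti q r hq y C
    J' le_rfl d hdpos, eventually_ge_atTop 1] with m hm hm1 R' h1 h2 h3 _
  obtain ⟨L, R, a, e0, e0', P, hcl, -⟩ := hm R' h1 h2 h3
  obtain ⟨c1, c2⟩ := hcl J' le_rfl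
  have hgap : L J' < R J' := by
    have h4 := Z.diff J' (by omega)
    have h5 : (R0 - L0) * (1 - (J' : ℝ) / ((J' + 1 : ℕ) : ℝ)) = (R0 - L0) / ((J' + 1 : ℕ) : ℝ) := by
      push_cast
      field_simp
      ring
    rw [h5] at h4
    rw [abs_lt] at c1 c2
    linarith [c1.1, c1.2, c2.1, c2.2]
  set v : ℝ := ((m * q + r : ℕ) : ℝ) + (((m * q : ℕ) : ℝ) * ((Fl (R J') - Fl (L J')) +
    (Fl (R J') - Fl (R J'))) + r * (Fl (R J' + R 0 - R J') - Fl (L J' + R 0 - R J'))) /
      (R J' - L J') with hv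
  set y' : ℕ → ℝ := fun h => if h < J' then y h else v with hy'
  have hlt : 0 < R J' - L J' := by linarith
  have hP := P.extend (y' := y') (v := R J') (w := R J') (b := m)
    (fun h hh => by simp [hy', hh]) hgap.le le_rfl (by linarith) le_rfl (by ring) (by
      unfold TE
      rw [Xg_eq80, Xg_eq80, Mg_ext_self, ext_succ, ext_succ, ext_of_le le_rfl, ext_of_le le_rfl,
        ext_of_le (Nat.zero_le _)]
      simp only [hy', lt_irrefl, if_false, sub_self, add_zero]
      rw [hv]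
      simp only [sub_self, add_zero]
      field_simp
      ring)
  refine ⟨ext J' L (R J'), ext J' R (R J'), fun h => if h < J' then a h else m,
    ⟨?_, hP.mono, hP.anti, ?_, hP.mpos, hP.ale, hP.left, ?_⟩, ?_, ?_, ?_, ?_⟩
  · rw [ext_of_le (Nat.zero_le _), e0]; exact hL0
  · rw [ext_succ, ext_succ]
  · rw [ext_of_le (Nat.zero_le _), e0']; exact h3.le
  · rw [ext_of_le (Nat.zero_le _), e0]
  · rw [ext_of_le (Nat.zero_le _), e0']
  · intro g hg
    have h4 := hP.tuned g (by omega)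
    unfold TE at h4
    unfold TunedAt
    have h5 : y' g = y g := by
      have : g < J' := by omega
      simp [hy', this]
    rw [h5] at h4
    exact h4
  · intro g hg
    have h4 : g ≤ J' := by omega
    rw [ext_of_le h4, ext_of_le h4]
    obtain ⟨c3, c4⟩ := hcl g h4
    exact ⟨(c3.trans_le hd1).le, (c4.trans_le hd1).le⟩

end Pool.Agent.H80Band
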