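import Mathlib

/-! Levels of `p log (1 / p)` with equally decreasing gaps (helper82). -/

set_option autoImplicit false

namespace Pool.Agent.H80Band

open Real Set

theorem slope82 {x y z : ℝ} (hx : 0 ≤ x) (hxy : x < y) (hyz : y < z) :
    (negMulLog z - negMulLog y) * (y - x) < (negMulLog y - negMulLog x) * (z - y) := by
  have h := strictConcaveOn_negMulLog.slope_anti_adjacent (Set.mem_Ici.2 hx)
    (Set.mem_Ici.2 (hx.trans (hxy.trans hyz).le)) hxy hyz
  rw [div_lt_div_iff₀ (by linarith) (by linarith)] at h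
  exact h

theorem inner82 {x y z : ℝ} (hx : 0 ≤ x) (hxy : x < y) (hyz : y < z)
    (h : negMulLog x = negMulLog z) : negMulLog x < negMulLog y := by
  have h1 := slope82 hx hxy hyz
  rw [← h] at h1
  by_contra hc
  have h2 : 0 ≤ (negMulLog x - negMulLog y) * (y - x) :=
    mul_nonneg (by linarith [not_lt.1 hc]) (by linarith)
  have h3 : (negMulLog y - negMulLog x) * (z - y) ≤ 0 :=
    mul_nonpos_of_nonpos_of_nonneg (by linarith [not_lt.1 hc]) (by linarith)
  linarith

theorem left82 {x y z : ℝ} (hx : 0 ≤ x) (hxy : x < y) (hyz : y < z)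
    (h : negMulLog y = negMulLog z) : negMulLog x < negMulLog y := by
  have h1 := slope82 hx hxy hyz
  rw [← h, sub_self, zero_mul] at h1
  have h2 : 0 < negMulLog y - negMulLog x := (pos_iff_pos_of_mul_pos h1).2 (by linarith)
  linarith

theorem right82 {x y z : ℝ} (hx : 0 ≤ x) (hxy : x < y) (hyz : y < z)
    (h : negMulLog x = negMulLog y) : negMulLog z < negMulLog y := by
  have h1 := slope82 hx hxy hyz
  rw [← h, sub_self, zero_mul] at h1
  by_contra hc
  have h2 : 0 ≤ (negMulLog z - negMulLog x) * (y - x) :=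
    mul_nonneg (by linarith [not_lt.1 hc]) (by linarith)
  linarith

theorem max82 {x : ℝ} (hx : 0 ≤ x) : negMulLog x ≤ negMulLog (exp (-1)) := by
  have h0 : negMulLog (exp (-1)) = exp (-1) := by
    rw [negMulLog, Real.log_exp]; ring
  rw [h0]
  rcases hx.eq_or_lt with rfl | hx
  · rw [negMulLog_zero]; exact (exp_pos _).le
  · have h1 := Real.add_one_le_exp (-Real.log x - 1)
    have h2 : exp (-Real.log x - 1) = exp (-1) / x := by
      rw [sub_eq_add_neg, Real.exp_add, Real.exp_neg (Real.log x), Real.exp_log hx]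
      field_simp
    rw [h2] at h1
    have h3 : -Real.log x ≤ exp (-1) / x := by linarith
    rw [le_div_iff₀ hx] at h3
    rw [negMulLog]
    linarith

theorem mem82 {x z : ℝ} (hx : 0 ≤ x) (hxz : x < z) (h : negMulLog x = negMulLog z) :
    x < exp (-1) ∧ exp (-1) < z := by
  have h1 := inner82 hx (show x < (x + z) / 2 by linarith) (by linarith) h
  have h2 : negMulLog ((x + z) / 2) ≤ negMulLog (exp (-1)) := max82 (by linarith)
  constructor
  · by_contra hc
    have hc := not_lt.1 hc
    rcases hc.eq_or_lt with hc | hc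
    · rw [hc] at h2; linarith
    · have := left82 (exp_pos _).le hc hxz h
      linarith
  · by_contra hc
    have hc := not_lt.1 hc
    rcases hc.eq_or_lt with hc | hc
    · rw [← hc] at h2; linarith
    · have := right82 hx hxz hc h
      linarith

theorem nested82 {x z x' z' : ℝ} (hx : 0 ≤ x) (hxz : x < z) (h : negMulLog x = negMulLog z)
    (hx' : 0 ≤ x') (h' : negMulLog x' = negMulLog z') (hle : x' ≤ z') (hlt : z' - x' < z - x)
    (hd : x' = z' → x' = exp (-1)) : x < x' ∧ z' < z := by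
  rcases hle.eq_or_lt with heq | hlt'
  · have h1 := mem82 hx hxz h
    have h2 := hd heq
    rw [← heq, h2]
    exact h1
  · constructor
    · by_contra hc
      have hc := not_lt.1 hc
      -- x' ≤ x, so z' < z
      have hz : z' < z := by linarith
      rcases le_or_gt x z' with hz2 | hz2
      · rcases hc.eq_or_lt with hc2 | hc2
        · subst hc2
          have := inner82 hx' hlt' hz h
          linarith
        · have h1 := left82 hx' hc2 hxz h
          rcases hz2.eq_or_lt with h3 | h3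
          · rw [← h3] at h'; linarith
          · have := inner82 hx h3 hz h
            linarith
      · have h1 := left82 hx' (hlt'.trans hz2) hxz h
        have h2 := right82 hx' hlt' hz2 h'
        linarith
    · by_contra hc
      have hc := not_lt.1 hc
      have hz : x < x' := by linarith
      rcases le_or_gt x' z with hz2 | hz2
      · rcases hc.eq_or_lt with hc2 | hc2
        · subst hc2
          have := inner82 hx hz hlt' h
          linarith
        · have h1 := right82 hx hxz hc2 h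
          rcases hz2.eq_or_lt with h3 | h3
          · rw [h3] at h'; linarith
          · have := inner82 hx hz h3 h
            linarith
      · have h1 := right82 hx hxz (hz2.trans hlt') h
        have h2 := left82 hx (hxz.trans hz2) hlt' h'
        linarith

theorem exists82 {L0 R0 : ℝ} (hL : 0 < L0) (hLR : L0 < R0) (h : negMulLog L0 = negMulLog R0)
    {D : ℝ} (hD : 0 ≤ D) (hD' : D ≤ R0 - L0) :
    ∃ L : ℝ, L0 ≤ L ∧ L + D ≤ R0 ∧ negMulLog L = negMulLog (L + D) ∧ (D = 0 → L = exp (-1)) := by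
  rcases hD.eq_or_lt with hD0 | hD0
  · have := mem82 hL.le hLR h
    exact ⟨exp (-1), this.1.le, by rw [← hD0, add_zero]; exact this.2.le, by rw [← hD0, add_zero],
      fun _ => rfl⟩
  · have hc : ContinuousOn (fun L => negMulLog (L + D) - negMulLog L) (Icc L0 (R0 - D)) := by
      apply Continuous.continuousOn
      exact (continuous_negMulLog.comp (by fun_prop)).sub continuous_negMulLog
    have hin : ∀ x, L0 ≤ x → x ≤ R0 → negMulLog L0 ≤ negMulLog x := by
      intro x h1 h2
      rcases h1.eq_or_lt with rfl | h1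
      · exact le_rfl
      · rcases h2.eq_or_lt with rfl | h2
        · exact h.le
        · exact (inner82 hL.le h1 h2 h).le
    have h1 : 0 ≤ (fun L => negMulLog (L + D) - negMulLog L) L0 := by
      have := hin (L0 + D) (by linarith) (by linarith)
      simp only; linarith
    have h2 : (fun L => negMulLog (L + D) - negMulLog L) (R0 - D) ≤ 0 := by
      have := hin (R0 - D) (by linarith) (by linarith)
      simp only [sub_add_cancel]; linarith
    obtain ⟨L, hL1, hL2⟩ := intermediate_value_Icc' (by linarith) hc ⟨h2, h1⟩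
    refine ⟨L, hL1.1, by linarith [hL1.2], ?_, fun h0 => absurd h0 hD0.ne'⟩
    simp only at hL2
    linarith

/-- the ideal levels -/
theorem levels82 {L0 R0 : ℝ} (hL : 0 < L0) (hLR : L0 < R0) (h : negMulLog L0 = negMulLog R0)
    {J : ℕ} (hJ : 1 ≤ J) : ∃ Lz Rz : ℕ → ℝ, Lz 0 = L0 ∧ Rz 0 = R0 ∧
      (∀ g ≤ J, negMulLog (Lz g) = negMulLog (Rz g) ∧
        Rz g - Lz g = (R0 - L0) * (1 - (g : ℝ) / J) ∧ L0 ≤ Lz g ∧ Rz g ≤ R0 ∧ Lz g ≤ Rz g) ∧
      (∀ g < J, Lz g < Lz (g + 1) ∧ Rz (g + 1) < Rz g ∧ Lz g < exp (-1) ∧ exp (-1) < Rz g) ∧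
      Lz J = exp (-1) ∧ Rz J = exp (-1) := by
  have hJ0 : (0 : ℝ) < J := by exact_mod_cast hJ
  have hD0 : 0 < R0 - L0 := by linarith
  have hex : ∀ D : ℝ, 0 ≤ D → D ≤ R0 - L0 → ∃ L : ℝ, L0 ≤ L ∧ L + D ≤ R0 ∧
      negMulLog L = negMulLog (L + D) ∧ (D = 0 → L = exp (-1)) :=
    fun D h1 h2 => exists82 hL hLR h h1 h2
  choose! Lf h1 h2 h3 h4 using hex
  have hDg : ∀ g ≤ J, 0 ≤ (R0 - L0) * (1 - (g : ℝ) / J) ∧
      (R0 - L0) * (1 - (g : ℝ) / J) ≤ R0 - L0 := by
    intro g hg
    have hg' : (g : ℝ) / J ≤ 1 := (div_le_one hJ0).2 (by exact_mod_cast hg)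
    have hg2 : 0 ≤ (g : ℝ) / J := by positivity
    constructor
    · exact mul_nonneg hD0.le (by linarith)
    · nlinarith
  have hstep : ∀ g < J, (R0 - L0) * (1 - ((g + 1 : ℕ) : ℝ) / J) < (R0 - L0) * (1 - (g : ℝ) / J) := by
    intro g _
    apply mul_lt_mul_of_pos_left _ hD0
    have : (g : ℝ) / J < ((g + 1 : ℕ) : ℝ) / J := by
      apply div_lt_div_of_pos_right _ hJ0
      push_cast; linarith
    linarith
  refine ⟨fun g => Lf ((R0 - L0) * (1 - (g : ℝ) / J)),
    fun g => Lf ((R0 - L0) * (1 - (g : ℝ) / J)) + (R0 - L0) * (1 - (g : ℝ) / J), ?_, ?_, ?_, ?_,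
    ?_, ?_⟩
  · have ha := h1 (R0 - L0) hD0.le le_rfl
    have hb := h2 (R0 - L0) hD0.le le_rfl
    simp only [Nat.cast_zero, zero_div, sub_zero, mul_one]
    linarith
  · have ha := h1 (R0 - L0) hD0.le le_rfl
    have hb := h2 (R0 - L0) hD0.le le_rfl
    simp only [Nat.cast_zero, zero_div, sub_zero, mul_one]
    linarith
  · intro g hg
    obtain ⟨ha, hb⟩ := hDg g hg
    exact ⟨h3 _ ha hb, by ring, h1 _ ha hb, h2 _ ha hb, by linarith⟩
  · intro g hg
    obtain ⟨ha, hb⟩ := hDg g hg.le
    obtain ⟨ha', hb'⟩ := hDg (g + 1) hg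
    have hs := hstep g hg
    have hl := h1 _ ha hb
    have hl' := h1 _ ha' hb'
    have hn := nested82 (x := Lf ((R0 - L0) * (1 - (g : ℝ) / J)))
      (z := Lf ((R0 - L0) * (1 - (g : ℝ) / J)) + (R0 - L0) * (1 - (g : ℝ) / J))
      (x' := Lf ((R0 - L0) * (1 - ((g + 1 : ℕ) : ℝ) / J)))
      (z' := Lf ((R0 - L0) * (1 - ((g + 1 : ℕ) : ℝ) / J)) +
        (R0 - L0) * (1 - ((g + 1 : ℕ) : ℝ) / J))
      (by linarith) (by linarith) (h3 _ ha hb) (by linarith) (h3 _ ha' hb') (by linarith)
      (by linarith) (fun he => h4 _ ha' hb' (by linarith))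
    have hm := mem82 (x := Lf ((R0 - L0) * (1 - (g : ℝ) / J)))
      (z := Lf ((R0 - L0) * (1 - (g : ℝ) / J)) + (R0 - L0) * (1 - (g : ℝ) / J))
      (by linarith) (by linarith) (h3 _ ha hb)
    exact ⟨hn.1, hn.2, hm.1, hm.2⟩
  · have : (R0 - L0) * (1 - (J : ℝ) / J) = 0 := by rw [div_self hJ0.ne']; ring
    simp only [this]
    exact h4 0 le_rfl hD0.le rfl
  · have : (R0 - L0) * (1 - (J : ℝ) / J) = 0 := by rw [div_self hJ0.ne']; ring
    simp only [this, add_zero]
    exact h4 0 le_rfl hD0.le rfl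

end Pool.Agent.H80Band
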