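import Pool.Agent.H80Band.FinA
import Pool.Agent.H80Band.Ind80
import Pool.Agent.H80Band.Lev82
import Pool.Agent.Helper62.AS.Riem
import Pool.Agent.H54Sharp.Bounds

set_option autoImplicit false

namespace Pool.Agent.H80Band

open Real Filter Topology Finset Pool.Agent.H54Sharp Pool.Agent.Helper62.AS
  Pool.Agent.Helper18.Sharp

theorem choose_l {δ0 : ℝ} (h : 0 < δ0) : ∃ l > 0, ∀ L0 R0 : ℝ, 0 < L0 → L0 ≤ l →
    exp (-1) < R0 → R0 < 1 → negMulLog R0 = negMulLog L0 → 1 - δ0 ≤ R0 - L0 := by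
  have hc : Continuous (fun x : ℝ => exp 1 * negMulLog x + x) :=
    (continuous_const.mul Real.continuous_negMulLog).add continuous_id
  have h0 : (fun x : ℝ => exp 1 * negMulLog x + x) 0 < δ0 := by simpa using h
  obtain ⟨l, hl, hs⟩ := Metric.eventually_nhds_iff.mp
    (hc.continuousAt.eventually (gt_mem_nhds h0))
  refine ⟨l / 2, half_pos hl, ?_⟩
  intro L0 R0 a1 a2 a3 a4 a5
  have h1 := hs (y := L0) (by rw [Real.dist_eq, sub_zero, abs_of_pos a1]; linarith)
  have hR0 : 0 < R0 := (exp_pos _).trans a3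
  have h2 : R0 * (1 - R0) ≤ negMulLog R0 := by
    unfold negMulLog
    have := Real.log_le_sub_one_of_pos hR0
    nlinarith
  have h3 : exp (-1) * (1 - R0) ≤ negMulLog L0 := by
    rw [← a5]
    refine le_trans ?_ h2
    exact mul_le_mul_of_nonneg_right a3.le (by linarith)
  have h4 : 1 - R0 ≤ exp 1 * negMulLog L0 := by
    have := mul_le_mul_of_nonneg_left h3 (exp_pos 1).le
    rw [← mul_assoc, ← exp_add] at this
    simpa using this
  linarith

theorem near_T {x θ : ℝ} (hθ : θ < 1) (hx : 0 < negMulLog x) :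
    ∀ᶠ δ in 𝓝[>] (0 : ℝ), ∀ x' : ℝ, |x' - x| ≤ δ → θ * negMulLog x ≤ negMulLog x' := by
  have h0 : θ * negMulLog x < negMulLog x := by nlinarith
  obtain ⟨s, hs, h⟩ := Metric.eventually_nhds_iff.mp
    (Real.continuous_negMulLog.continuousAt.eventually (lt_mem_nhds h0))
  filter_upwards [Ioo_mem_nhdsGT hs] with δ hδ x' hx'
  exact (h (y := x') (by rw [Real.dist_eq]; exact hx'.trans_lt hδ.2)).le

theorem fin80 (hInd : Ind) : BandsRow := by
  classical
  intro ε hε
  set E0 : ℝ := 1 + eulerMascheroniConstant with hE0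
  have hE0pos : 1 < E0 := by
    have := one_half_lt_eulerMascheroniConstant
    linarith
  set ε' : ℝ := min ε 1 / 8 with hε'
  have hε'0 : 0 < ε' := by
    have : 0 < min ε 1 := lt_min hε one_pos
    linarith
  have hε'1 : 8 * ε' ≤ ε := by
    have : min ε 1 ≤ ε := min_le_left _ _
    linarith
  set δ0 : ℝ := 1 - (E0 + 2 * ε') / (E0 + 3 * ε') with hδ0d
  have hden : 0 < E0 + 3 * ε' := by linarith
  have hδ0 : 0 < δ0 := by
    rw [hδ0d, sub_pos, div_lt_one hden]
    linarith
  have hδ01 : (E0 + 3 * ε') * (1 - δ0) = E0 + 2 * ε' := by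
    rw [hδ0d]
    field_simp
    ring
  have hδ02 : 0 < 1 - δ0 := by
    have : 1 - δ0 = (E0 + 2 * ε') / (E0 + 3 * ε') := by rw [hδ0d]; ring
    rw [this]
    exact div_pos (by linarith) hden
  obtain ⟨l0, hl0, hl⟩ := choose_l hδ0
  refine ⟨min l0 ε', lt_min hl0 hε'0, ?_⟩
  intro L0 R0 hL0 hLl hRe hR1 hT
  have hlen : 1 - δ0 ≤ R0 - L0 := hl L0 R0 hL0 (hLl.trans (min_le_left _ _)) hRe hR1 hT
  have hLR : L0 < R0 := by linarith
  obtain ⟨hLe, -⟩ := mem82 hL0.le hLR hT.symm
  have he1 : exp (-1 : ℝ) < 1 := by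
    rw [Real.exp_lt_one_iff]
    norm_num
  refine ⟨2, two_pos, ?_⟩
  have hlT0 : 1 ≤ lT L0 := one_le_lT hL0 (by linarith)
  filter_upwards [eventually_ge_atTop 1,
    (tendsto_const_div_atTop_nhds_zero_nat (lT L0)).eventually
      (gt_mem_nhds (half_pos hε'0))] with J hJ hJl
  intro q r hq hr C hC
  have hJ0 : (0 : ℝ) < J := by exact_mod_cast hJ
  obtain ⟨Lz, Rz, z0, z0', zA, zB, -, -⟩ := levels82 hL0 hLR hT.symm hJ
  have Z : Levels J L0 R0 Lz Rz := ⟨z0, z0', fun g hg => (zA g hg).1, fun g hg => (zA g hg).2.1,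
    fun g hg => (zB g hg).1, fun g hg => (zB g hg).2.1, fun g hg => (zB g hg).2.2.1,
    fun g hg => (zB g hg).2.2.2⟩
  have hriem := riem hL0 hR1 hJ z0 z0' (fun g hg => (zA g hg.le).1) (fun g hg => (zA g hg).2.1)
    (fun g hg => (zB g hg).1.le) (fun g hg => (zB g hg).2.1.le)
    (fun g hg => (zB g hg).2.2.1.le) (fun g hg => (zB g hg).2.2.2.le)
  set θ : ℝ := exp (-ε') with hθ
  have hθ0 : 0 < θ := exp_pos _
  have hθ1 : θ < 1 := by rw [hθ, Real.exp_lt_one_iff]; linarith
  have hTz : ∀ g < J, 0 < negMulLog (Lz g) := fun g hg =>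
    T_pos (hL0.trans_le (zA g hg.le).2.2.1) ((zB g hg).2.2.1.trans he1)
  have hlTz : ∀ g < J, 1 ≤ lT (Lz g) ∧ lT (Lz g) ≤ lT L0 := fun g hg =>
    ⟨one_le_lT (hL0.trans_le (zA g hg.le).2.2.1) ((zB g hg).2.2.1.trans he1),
      lT_anti hL0 (zA g hg.le).2.2.1 (zB g hg).2.2.1.le⟩
  have hev : ∀ᶠ δ in 𝓝[>] (0 : ℝ), ∀ g ∈ range J,
      (∀ x' : ℝ, |x' - Lz g| ≤ δ → θ * negMulLog (Lz g) ≤ negMulLog x') ∧
      (∀ x' : ℝ, |x' - Rz g| ≤ δ → θ * negMulLog (Rz g) ≤ negMulLog x') := by
    rw [Filter.eventually_all_finset]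
    intro g hg
    have hg' := mem_range.mp hg
    refine (near_T hθ1 (hTz g hg')).and (near_T hθ1 ?_)
    rw [← (zA g hg'.le).1]
    exact hTz g hg'
  have hbd : 0 < min (1 / (4 * (J : ℝ))) (ε' / (8 * J * lT L0)) := by
    apply lt_min
    · positivity
    · apply div_pos hε'0
      have : 0 < lT L0 := by linarith
      positivity
  obtain ⟨δ, hδev, hδpos, hδlt⟩ := (hev.and (Ioo_mem_nhdsGT hbd)).exists
  have hδ1 : 4 * δ ≤ 1 / J := by
    have h5 : δ < 1 / (4 * (J : ℝ)) := hδlt.trans_le (min_le_left _ _)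
    rw [lt_div_iff₀ (by positivity)] at h5
    rw [le_div_iff₀ hJ0]
    linarith
  have hδ2 : 4 * δ * (J * lT L0) ≤ ε' / 2 := by
    have h5 : δ < ε' / (8 * J * lT L0) := hδlt.trans_le (min_le_right _ _)
    have h6 : 0 < 8 * (J : ℝ) * lT L0 := by
      have : 0 < lT L0 := by linarith
      positivity
    rw [lt_div_iff₀ h6] at h5
    linarith
  set c : ℝ := E0 + 4 * ε' with hc
  set y : ℕ → ℝ := fun g => c + log (θ * negMulLog (Lz g)) with hy
  have hyv : ∀ g < J, y g = E0 + 3 * ε' - lT (Lz g) := by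
    intro g hg
    simp only [hy]
    rw [Real.log_mul hθ0.ne' (hTz g hg).ne', hθ, Real.log_exp, lT_eq, hc]
    ring
  set Y : ℝ := r + (E0 + 3 * ε' + lT L0) + 1 with hY
  have hlpos : 0 < min l0 ε' := lt_min hl0 hε'0
  filter_upwards [hInd L0 R0 hL0 hLe hRe hR1 hT J hJ Lz Rz Z q r hq hr y C (min l0 ε') δ hC hlpos
    hδpos, eventually_ge_atTop 1, (tendsto_den' q hq Y).eventually (gt_mem_nhds hε'0)]
    with m hm hm1 hmY R' h1 h2 h3 h4
  obtain ⟨L, R, a, hB, e0, e0', hTun, hcl⟩ := hm R' h1 h2 h3 h4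
  have hmq : (0 : ℝ) < ((m * q : ℕ) : ℝ) := by
    have : 0 < m * q := Nat.mul_pos hm1 hq
    exact_mod_cast this
  have hcast : ((m * q + r : ℕ) : ℝ) = ((m * q : ℕ) : ℝ) + r := by push_cast; ring
  set v : ℝ := ((m * q + r : ℕ) : ℝ) + (((m * q : ℕ) : ℝ) *
    ((Fl (L (J - 1 + 1)) - Fl (L (J - 1))) + (Fl (R (J - 1)) - Fl (R (J - 1 + 1)))) +
    r * (Fl (Xg L R (J - 1 + 1)) - Fl (Xg L R (J - 1)))) / Mg L R (J - 1) with hv
  set y' : ℕ → ℝ := fun g => if g + 1 < J then y g else v with hy'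
  have hTuned : Tuned m q r J L R y' := by
    intro g hg
    by_cases hgJ : g + 1 < J
    · have h5 := hTun g hgJ
      unfold TunedAt at h5
      have h6 : y' g = y g := by simp only [hy', if_pos hgJ]
      rw [h6]
      exact h5
    · obtain rfl : g = J - 1 := by omega
      have h6 : y' (J - 1) = v := by simp only [hy', if_neg hgJ]
      have h7 := (hB.mpos (J - 1) hg).ne'
      rw [h6, hv]
      field_simp
      ring
  have hsum := sum_rule hB.meet hTuned
  rw [e0, e0'] at hsum
  have hMclose : ∀ g < J, |Mg L R g - (R0 - L0) / J| ≤ 4 * δ := by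
    intro g hg
    have h5 := (zA g hg.le).2.1
    obtain ⟨c1, c2⟩ := hcl g hg
    by_cases hgJ : g + 1 < J
    · obtain ⟨c3, c4⟩ := hcl (g + 1) hgJ
      have h6 := (zA (g + 1) hgJ.le).2.1
      have h7 : (Rz g - Lz g) - (Rz (g + 1) - Lz (g + 1)) = (R0 - L0) / J := by
        rw [h5, h6]
        push_cast
        field_simp
        ring
      have h8 : Mg L R g - (R0 - L0) / J = (L (g + 1) - Lz (g + 1)) - (L g - Lz g) +
          ((R g - Rz g) - (R (g + 1) - Rz (g + 1))) := by
        rw [← h7]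
        unfold Mg
        ring
      rw [h8]
      rw [abs_le] at *
      constructor <;> linarith [c1.1, c1.2, c2.1, c2.2, c3.1, c3.2, c4.1, c4.2]
    · have hJg : J = g + 1 := by omega
      have h7 : Rz g - Lz g = (R0 - L0) / J := by
        rw [h5, hJg]
        push_cast
        field_simp
        ring
      have h8 : Mg L R g - (R0 - L0) / J = (R g - Rz g) - (L g - Lz g) := by
        rw [← h7]
        unfold Mg
        have := hB.meet
        rw [hJg] at this
        rw [this]
        ring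
      rw [h8]
      rw [abs_le] at *
      constructor <;> linarith [c1.1, c1.2, c2.1, c2.2]
  have hM1 : ∀ g < J, Mg L R g ≤ (R0 - L0) / J + 4 * δ := fun g hg => by
    have := (abs_le.mp (hMclose g hg)).2
    linarith
  have hMJ : (R0 - L0) / J ≤ 1 / J := div_le_div_of_nonneg_right (by linarith) hJ0.le
  -- the sum with the wanted values
  have hlow : ε' ≤ ∑ g ∈ range J, Mg L R g * y g := by
    have h5 : ∑ g ∈ range J, Mg L R g * y g = (E0 + 3 * ε') * (R' - L0) -
        ∑ g ∈ range J, Mg L R g * lT (Lz g) := by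
      rw [← e0', ← e0, ← hB.sum_Mg_eq, mul_sum, ← sum_sub_distrib]
      apply sum_congr rfl
      intro g hg
      rw [hyv g (mem_range.mp hg)]
      ring
    have h6 : ∑ g ∈ range J, Mg L R g * lT (Lz g) ≤ E0 + ε' := by
      calc ∑ g ∈ range J, Mg L R g * lT (Lz g) ≤
            ∑ g ∈ range J, ((R0 - L0) / J * lT (Lz g) + 4 * δ * lT L0) := by
            apply sum_le_sum
            intro g hg
            have hg' := mem_range.mp hg
            obtain ⟨k1, k2⟩ := hlTz g hg'
            have k3 := mul_le_mul_of_nonneg_right (hM1 g hg') (by linarith : 0 ≤ lT (Lz g))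
            have k4 : 4 * δ * lT (Lz g) ≤ 4 * δ * lT L0 :=
              mul_le_mul_of_nonneg_left k2 (by linarith)
            linarith
        _ = (R0 - L0) / J * ∑ g ∈ range J, lT (Lz g) + 4 * δ * (J * lT L0) := by
            rw [sum_add_distrib, ← mul_sum, sum_const, card_range, nsmul_eq_mul]
            ring
        _ ≤ (E0 + (R0 - L0) / J * lT L0) + ε' / 2 := add_le_add hriem hδ2
        _ ≤ E0 + ε' := by
            have k5 : (R0 - L0) / J * lT L0 ≤ lT L0 / J := by
              rw [div_mul_eq_mul_div]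
              apply div_le_div_of_nonneg_right _ hJ0.le
              nlinarith
            linarith
    have h7 : (E0 + 3 * ε') * (1 - δ0) ≤ (E0 + 3 * ε') * (R' - L0) :=
      mul_le_mul_of_nonneg_left (by linarith) hden.le
    rw [hδ01] at h7
    linarith
  have hyy : ∀ g < J, y' g ≤ y g := by
    intro g hg
    by_cases hgJ : g + 1 < J
    · simp only [hy', if_pos hgJ]
      exact le_rfl
    · have hdiff : ∑ h ∈ range J, Mg L R h * (y h - y' h) = Mg L R g * (y g - y' g) := by
        apply sum_eq_single_of_mem g (mem_range.mpr hg)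
        intro h hh hne
        have hh' := mem_range.mp hh
        have h5 : h + 1 < J := by omega
        have h6 : y' h = y h := by simp only [hy', if_pos h5]
        rw [h6, sub_self, mul_zero]
      have h5 : ∑ h ∈ range J, Mg L R h * (y h - y' h) =
          ∑ h ∈ range J, Mg L R h * y h - ∑ h ∈ range J, Mg L R h * y' h := by
        rw [← sum_sub_distrib]
        exact sum_congr rfl fun h _ => by ring
      have h6 : ((m * q + r : ℕ) : ℝ) * (negMulLog L0 - negMulLog R') ≤ ε' :=
        h4.trans (min_le_right _ _)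
      have h7 : 0 ≤ Mg L R g * (y g - y' g) := by
        rw [← hdiff, h5, hsum]
        linarith
      have h8 := nonneg_of_mul_nonneg_right h7 (hB.mpos g hg)
      linarith
  refine ⟨L, R, a, y', hB, e0, e0', hTuned, ?_⟩
  intro g hg
  have hg' : g ∈ range J := mem_range.mpr hg
  have hMpos := hB.mpos g hg
  refine ⟨?_, ?_, ?_⟩
  · have h5 := hM1 g hg
    have h6 : (2 : ℝ) / J = 1 / J + 1 / J := by ring
    rw [h6]
    linarith
  · apply Real.exp_le_exp.mpr
    have h5 := hyy g hg
    rw [hyv g hg] at h5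
    have h6 := (hlTz g hg).1
    linarith
  · obtain ⟨c1, c2⟩ := hcl g hg
    obtain ⟨t1, t2⟩ := hδev g hg'
    have a1 : θ * negMulLog (Lz g) ≤ negMulLog (L g) := t1 _ c1
    have a2 : θ * negMulLog (Lz g) ≤ negMulLog (R g) := by
      rw [(zA g hg.le).1]
      exact t2 _ c2
    have hLpos : 0 < L g := by
      have := hB.L_mono (Nat.zero_le g) hg.le
      rw [e0] at this
      linarith
    have hmid : L (g + 1) ≤ R (g + 1) := by
      have k1 := hB.L_mono (show g + 1 ≤ J from hg) le_rfl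
      have k2 := hB.R_anti (show g + 1 ≤ J from hg) le_rfl
      have k3 := hB.meet
      linarith
    have hW := W2 hLpos (hB.mono g hg) hmid (hB.anti g hg) a1 a2
    have hX1 := hB.Xg_ge hg.le
    have hX2 := hB.Xg_le (show g + 1 ≤ J from hg)
    have hX3 := Xg_succ L R g
    have hBn : Fl (Xg L R (g + 1)) - Fl (Xg L R g) ≤ 0 := by
      rw [e0] at hX1
      rw [e0'] at hX2
      have k1 := W1 (τ := 0) (a := Xg L R g) (b := Xg L R (g + 1)) (by linarith) (by linarith)
        (fun p hp1 hp2 => Real.negMulLog_nonneg (by linarith) (by linarith))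
      linarith
    have hTg := hTuned g hg
    rw [hcast] at hTg
    have hfin := exp_bound hmq (Nat.cast_nonneg r) hMpos.le (mul_pos hθ0 (hTz g hg)) hTg hBn hW
      (hyy g hg)
    refine hfin.trans ?_
    have h5 : |c + log (θ * negMulLog (Lz g))| ≤ E0 + 3 * ε' + lT L0 := by
      have h6 : c + log (θ * negMulLog (Lz g)) = E0 + 3 * ε' - lT (Lz g) := hyv g hg
      rw [h6, abs_le]
      obtain ⟨k1, k2⟩ := hlTz g hg
      constructor <;> linarith
    have h7 : 1 + ((r : ℝ) + |c + log (θ * negMulLog (Lz g))| + 1) / ((m * q : ℕ) : ℝ) ≤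
        exp ε' := by
      have h8 : ((r : ℝ) + |c + log (θ * negMulLog (Lz g))| + 1) / ((m * q : ℕ) : ℝ) ≤ ε' := by
        refine (div_le_div_of_nonneg_right ?_ hmq.le).trans hmY.le
        rw [hY]
        linarith
      have := Real.add_one_le_exp ε'
      linarith
    calc exp c * Mg L R g * (1 + ((r : ℝ) + |c + log (θ * negMulLog (Lz g))| + 1) /
          ((m * q : ℕ) : ℝ)) ≤ exp c * Mg L R g * exp ε' :=
          mul_le_mul_of_nonneg_left h7 (by positivity)
      _ = exp (c + ε') * Mg L R g := by rw [Real.exp_add c ε']; ring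
      _ ≤ exp (E0 + ε) * Mg L R g := by
          apply mul_le_mul_of_nonneg_right _ hMpos.le
          apply Real.exp_le_exp.mpr
          linarith

theorem bandsRow80 : BandsRow := fin80 ind80

end Pool.Agent.H80Band
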