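import Pool.Agent.H80Band.Sign

set_option autoImplicit false

namespace Pool.Agent.H80Band

open Real Set Filter Topology

/-- the difference of `-p log p` at the two ends after a step of length `M` with ratio `ρ` -/
noncomputable def H (L R ρ M : ℝ) : ℝ := negMulLog (L + ρ * M) - negMulLog (R - (1 - ρ) * M)

theorem H_eq_G (L R ρ M : ℝ) : H L R ρ M = G (L + ρ * (R - L)) ρ (R - L - M) := by
  unfold H G
  congr 2 <;> ring

theorem continuous_H : Continuous (fun p : ℝ × ℝ × ℝ × ℝ => H p.1 p.2.1 p.2.2.1 p.2.2.2) := by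
  unfold H
  exact (Real.continuous_negMulLog.comp (by fun_prop)).sub
    (Real.continuous_negMulLog.comp (by fun_prop))

theorem continuous_H_left (M : ℝ) : Continuous (fun p : ℝ × ℝ × ℝ => H p.1 p.2.1 p.2.2 M) := by
  unfold H
  exact (Real.continuous_negMulLog.comp (by fun_prop)).sub
    (Real.continuous_negMulLog.comp (by fun_prop))

theorem continuous_H_right (L R ρ : ℝ) : Continuous (fun M : ℝ => H L R ρ M) := by
  unfold H
  exact (Real.continuous_negMulLog.comp (by fun_prop)).sub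
    (Real.continuous_negMulLog.comp (by fun_prop))

/-- **The step lemma.** -/
theorem step {Ls Rs Ls' Rs' : ℝ} (h0 : 0 < Ls) (h1 : Ls < Ls') (h2 : Ls' < Rs') (h3 : Rs' < Rs)
    (hT : negMulLog Ls = negMulLog Rs) (hT' : negMulLog Ls' = negMulLog Rs') {d : ℝ}
    (hd : 0 < d) :
    ∃ d' > 0, ∃ η > 0, ∃ m₀ : ℕ, 1 ≤ m₀ ∧ ∀ L R : ℝ, |L - Ls| < d' → |R - Rs| < d' →
      ∀ m : ℕ, m₀ ≤ m → ∀ e : ℝ → ℝ, Continuous e →
      (∀ M, 0 ≤ M → M ≤ (Ls' - Ls) + (Rs - Rs') + d → |e M| ≤ η) →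
      ∃ a : ℕ, a ≤ m ∧ ∃ M : ℝ, 0 < M ∧ |M - ((Ls' - Ls) + (Rs - Rs'))| < d ∧
        H L R ((a : ℝ) / m) M = e M ∧
        |L + (a : ℝ) / m * M - Ls'| < d ∧ |R - (1 - (a : ℝ) / m) * M - Rs'| < d := by
  set M₀ : ℝ := (Ls' - Ls) + (Rs - Rs') with hM₀
  have hM₀0 : 0 < M₀ := by rw [hM₀]; linarith
  set ρ₀ : ℝ := (Ls' - Ls) / M₀ with hρ₀
  have hρ0 : 0 < ρ₀ := div_pos (by linarith) hM₀0
  have hρ1 : ρ₀ < 1 := by rw [hρ₀, div_lt_one hM₀0, hM₀]; linarith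
  have hρM : ρ₀ * M₀ = Ls' - Ls := by rw [hρ₀]; field_simp
  set t₀ : ℝ := Rs' - Ls' with ht₀
  have ht₀0 : 0 < t₀ := by rw [ht₀]; linarith
  have hsum : M₀ + t₀ = Rs - Ls := by rw [hM₀, ht₀]; ring
  -- sign change
  have hc : 0 < (Ls + ρ₀ * (Rs - Ls)) - ρ₀ * (Rs - Ls) := by linarith
  have hG0 : G (Ls + ρ₀ * (Rs - Ls)) ρ₀ t₀ = 0 := by
    have e1 : t₀ = Rs - Ls - M₀ := by linarith
    rw [e1, ← H_eq_G]
    unfold H
    have e2 : Ls + ρ₀ * M₀ = Ls' := by rw [hρM]; ring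
    have e3 : Rs - (1 - ρ₀) * M₀ = Rs' := by
      have : (1 - ρ₀) * M₀ = M₀ - (Ls' - Ls) := by rw [sub_mul, hρM, one_mul]
      rw [this, hM₀]; ring
    rw [e2, e3, hT', sub_self]
  have hGD : G (Ls + ρ₀ * (Rs - Ls)) ρ₀ (Rs - Ls) = 0 := by
    have e1 := H_eq_G Ls Rs ρ₀ 0
    rw [sub_zero] at e1
    rw [← e1]
    unfold H
    rw [mul_zero, add_zero, mul_zero, sub_zero, hT, sub_self]
  obtain ⟨sneg, spos⟩ := G_sign hρ0 hρ1 hc ht₀0 (by linarith) hG0 hGD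
  set d1 : ℝ := min (d / 4) (min (M₀ / 2) (t₀ / 2)) with hd1
  have hd10 : 0 < d1 := lt_min (by linarith) (lt_min (by linarith) (by linarith))
  have hd1d : d1 ≤ d / 4 := min_le_left _ _
  have hd1M : d1 ≤ M₀ / 2 := (min_le_right _ _).trans (min_le_left _ _)
  have hd1t : d1 ≤ t₀ / 2 := (min_le_right _ _).trans (min_le_right _ _)
  have hpos : 0 < H Ls Rs ρ₀ (M₀ - d1) := by
    rw [H_eq_G]
    exact spos _ (by linarith) (by linarith)
  have hneg : H Ls Rs ρ₀ (M₀ + d1) < 0 := by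
    rw [H_eq_G]
    exact sneg _ (by linarith) (by linarith)
  set κ : ℝ := min (H Ls Rs ρ₀ (M₀ - d1)) (-H Ls Rs ρ₀ (M₀ + d1)) / 2 with hκ
  have hκ0 : 0 < κ := half_pos (lt_min hpos (by linarith))
  have hκ1 : κ < H Ls Rs ρ₀ (M₀ - d1) := by
    have := min_le_left (H Ls Rs ρ₀ (M₀ - d1)) (-H Ls Rs ρ₀ (M₀ + d1))
    have h5 : min (H Ls Rs ρ₀ (M₀ - d1)) (-H Ls Rs ρ₀ (M₀ + d1)) = 2 * κ := by rw [hκ]; ring
    linarith
  have hκ2 : H Ls Rs ρ₀ (M₀ + d1) < -κ := by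
    have := min_le_right (H Ls Rs ρ₀ (M₀ - d1)) (-H Ls Rs ρ₀ (M₀ + d1))
    have h5 : min (H Ls Rs ρ₀ (M₀ - d1)) (-H Ls Rs ρ₀ (M₀ + d1)) = 2 * κ := by rw [hκ]; ring
    linarith
  have ev : ∀ᶠ p in 𝓝 ((Ls, Rs, ρ₀) : ℝ × ℝ × ℝ),
      κ < H p.1 p.2.1 p.2.2 (M₀ - d1) ∧ H p.1 p.2.1 p.2.2 (M₀ + d1) < -κ :=
    ((continuous_H_left (M₀ - d1)).continuousAt.eventually (lt_mem_nhds hκ1)).and
      ((continuous_H_left (M₀ + d1)).continuousAt.eventually (gt_mem_nhds hκ2))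
  obtain ⟨s, hs0, hs⟩ := Metric.eventually_nhds_iff.mp ev
  obtain ⟨m₀, hm₀⟩ := exists_nat_gt (max (1 / s) (4 * (M₀ + d1) / d))
  have hm₀1 : 1 / s < m₀ := lt_of_le_of_lt (le_max_left _ _) hm₀
  have hm₀2 : 4 * (M₀ + d1) / d < m₀ := lt_of_le_of_lt (le_max_right _ _) hm₀
  have hm₀pos : (0 : ℝ) < m₀ := lt_trans (by positivity) hm₀1
  refine ⟨min s (d / 4), lt_min hs0 (by linarith), κ, hκ0, m₀, by exact_mod_cast hm₀pos, ?_⟩
  intro L R hL hR m hm e hec he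
  have hmm : (m₀ : ℝ) ≤ m := by exact_mod_cast hm
  have hmpos : (0 : ℝ) < m := lt_of_lt_of_le hm₀pos hmm
  have hLs : |L - Ls| < s := lt_of_lt_of_le hL (min_le_left _ _)
  have hRs : |R - Rs| < s := lt_of_lt_of_le hR (min_le_left _ _)
  have hLd : |L - Ls| < d / 4 := lt_of_lt_of_le hL (min_le_right _ _)
  have hRd : |R - Rs| < d / 4 := lt_of_lt_of_le hR (min_le_right _ _)
  set a : ℕ := ⌊ρ₀ * m⌋₊ with ha
  have ha1 : (a : ℝ) ≤ ρ₀ * m := Nat.floor_le (by positivity)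
  have ha2 : ρ₀ * m < a + 1 := Nat.lt_floor_add_one _
  have ham : a ≤ m := by
    have : (a : ℝ) ≤ m := ha1.trans (by nlinarith)
    exact_mod_cast this
  have hρa : |(a : ℝ) / m - ρ₀| ≤ 1 / m := by
    rw [abs_le]
    constructor
    · rw [le_sub_iff_add_le, le_div_iff₀ hmpos, add_mul, neg_mul, one_div,
        inv_mul_cancel₀ hmpos.ne']
      linarith
    · have : (a : ℝ) / m ≤ ρ₀ := by rw [div_le_iff₀ hmpos]; exact ha1
      have h4 : (0 : ℝ) ≤ 1 / m := by positivity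
      linarith
  have h1m : 1 / (m : ℝ) < s := by
    rw [div_lt_iff₀ hmpos]
    rw [div_lt_iff₀ hs0] at hm₀1
    nlinarith
  have h1d : (M₀ + d1) * (1 / (m : ℝ)) < d / 4 := by
    rw [mul_one_div, div_lt_iff₀ hmpos]
    rw [div_lt_iff₀ hd] at hm₀2
    nlinarith
  have hρa' : |(a : ℝ) / m - ρ₀| < s := lt_of_le_of_lt hρa h1m
  obtain ⟨k1, k2⟩ := hs (y := (L, R, (a : ℝ) / m)) (by
    rw [Prod.dist_eq, Prod.dist_eq, Real.dist_eq, Real.dist_eq, Real.dist_eq]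
    exact max_lt hLs (max_lt hRs hρa'))
  simp only at k1 k2
  have he1 : |e (M₀ - d1)| ≤ κ := he _ (by linarith) (by linarith)
  have he2 : |e (M₀ + d1)| ≤ κ := he _ (by linarith) (by linarith)
  rw [abs_le] at he1 he2
  have hcont : ContinuousOn (fun M => H L R ((a : ℝ) / m) M - e M)
      (Icc (M₀ - d1) (M₀ + d1)) := ((continuous_H_right L R _).sub hec).continuousOn
  obtain ⟨M, hM, hMe⟩ := intermediate_value_Icc' (by linarith : M₀ - d1 ≤ M₀ + d1) hcont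
    (mem_Icc.mpr ⟨by linarith, by linarith⟩ : (0 : ℝ) ∈ Icc (H L R ((a : ℝ) / m) (M₀ + d1) -
      e (M₀ + d1)) (H L R ((a : ℝ) / m) (M₀ - d1) - e (M₀ - d1)))
  have hM1 : M₀ - d1 ≤ M := hM.1
  have hM2 : M ≤ M₀ + d1 := hM.2
  have hMabs : |M - M₀| ≤ d1 := by rw [abs_le]; constructor <;> linarith
  have hM0 : 0 < M := by linarith
  have hb1 : |(a : ℝ) / m * M - ρ₀ * M₀| < d / 4 + d / 4 := by
    have e1 : (a : ℝ) / m * M - ρ₀ * M₀ = ((a : ℝ) / m - ρ₀) * M + ρ₀ * (M - M₀) := by ring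
    rw [e1]
    refine lt_of_le_of_lt (abs_add_le _ _) ?_
    rw [abs_mul, abs_mul, abs_of_pos hM0, abs_of_pos hρ0]
    have c1 : |(a : ℝ) / m - ρ₀| * M ≤ (M₀ + d1) * (1 / (m : ℝ)) := by
      rw [mul_comm]
      exact mul_le_mul hM2 hρa (abs_nonneg _) (by linarith)
    have c2 : ρ₀ * |M - M₀| ≤ d / 4 := by
      calc ρ₀ * |M - M₀| ≤ 1 * |M - M₀| := mul_le_mul_of_nonneg_right hρ1.le (abs_nonneg _)
        _ ≤ d / 4 := by linarith
    linarith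
  refine ⟨a, ham, M, hM0, lt_of_le_of_lt hMabs (by linarith), by simp only at hMe; linarith, ?_, ?_⟩
  · have e1 : L + (a : ℝ) / m * M - Ls' = (L - Ls) + ((a : ℝ) / m * M - ρ₀ * M₀) := by
      rw [hρM]; ring
    rw [e1]
    refine lt_of_le_of_lt (abs_add_le _ _) ?_
    linarith
  · have e1 : R - (1 - (a : ℝ) / m) * M - Rs' =
        (R - Rs) + (-(M - M₀) + ((a : ℝ) / m * M - ρ₀ * M₀)) := by
      rw [hρM, hM₀]; ring
    rw [e1]
    refine lt_of_le_of_lt (abs_add_le _ _) ?_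
    have := abs_add_le (-(M - M₀)) ((a : ℝ) / m * M - ρ₀ * M₀)
    rw [abs_neg] at this
    linarith

end Pool.Agent.H80Band
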