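import Pool.Agent.H54Sharp.Stmt
import Pool.Agent.H80Band.Step

set_option autoImplicit false

namespace Pool.Agent.H80Band

open Real Filter Topology Finset Pool.Agent.H54Sharp

theorem sum_Mg80 (L R : ℕ → ℝ) (g : ℕ) :
    ∑ h ∈ range g, Mg L R h = (L g - L 0) + (R 0 - R g) := by
  induction g with
  | zero => simp
  | succ g ih => rw [sum_range_succ, ih]; unfold Mg; ring

theorem Xg_eq80 (L R : ℕ → ℝ) (g : ℕ) : Xg L R g = L g + R 0 - R g := by
  unfold Xg
  rw [sum_Mg80]
  ring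

theorem Fl_eq80 (p : ℝ) : Fl p = -negMulLog p - p := by
  unfold Fl negMulLog
  ring

/-- the equation of the band `h` -/
def TE (m q r : ℕ) (L R : ℕ → ℝ) (y : ℕ → ℝ) (h : ℕ) : Prop :=
  ((m * q : ℕ) : ℝ) * ((Fl (L (h + 1)) - Fl (L h)) + (Fl (R h) - Fl (R (h + 1)))) +
    r * (Fl (Xg L R (h + 1)) - Fl (Xg L R h)) = (-((m * q + r : ℕ) : ℝ) + y h) * Mg L R h

/-- bands up to the index `g` -/
structure Part (m q r : ℕ) (y : ℕ → ℝ) (g : ℕ) (L R : ℕ → ℝ) (a : ℕ → ℕ) : Prop where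
  mono : ∀ h < g, L h ≤ L (h + 1)
  anti : ∀ h < g, R (h + 1) ≤ R h
  mpos : ∀ h < g, 0 < Mg L R h
  ale : ∀ h < g, a h ≤ m
  left : ∀ h < g, (L (h + 1) - L h) * m = a h * Mg L R h
  tuned : ∀ h < g, TE m q r L R y h

/-- extension by one value -/
def ext (g : ℕ) (f : ℕ → ℝ) (v : ℝ) : ℕ → ℝ := fun h => if h ≤ g then f h else v

theorem ext_of_le {g : ℕ} {f : ℕ → ℝ} {v : ℝ} {h : ℕ} (hh : h ≤ g) : ext g f v h = f h := by
  simp [ext, hh]

theorem ext_succ {g : ℕ} {f : ℕ → ℝ} {v : ℝ} : ext g f v (g + 1) = v := by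
  simp [ext]

theorem Mg_ext {g : ℕ} {L R : ℕ → ℝ} {v w : ℝ} {h : ℕ} (hh : h < g) :
    Mg (ext g L v) (ext g R w) h = Mg L R h := by
  unfold Mg
  rw [ext_of_le (by omega), ext_of_le (by omega), ext_of_le (by omega), ext_of_le (by omega)]

theorem Mg_ext_self {g : ℕ} {L R : ℕ → ℝ} {v w : ℝ} :
    Mg (ext g L v) (ext g R w) g = (v - L g) + (R g - w) := by
  unfold Mg
  rw [ext_succ, ext_succ, ext_of_le le_rfl, ext_of_le le_rfl]

theorem TE_ext {m q r g : ℕ} {L R : ℕ → ℝ} {y y' : ℕ → ℝ} {v w : ℝ} {h : ℕ} (hh : h < g)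
    (hy : y' h = y h) (hTE : TE m q r L R y h) : TE m q r (ext g L v) (ext g R w) y' h := by
  unfold TE at *
  rw [Xg_eq80, Xg_eq80] at *
  rw [Mg_ext hh, ext_of_le (by omega), ext_of_le (by omega), ext_of_le (by omega),
    ext_of_le (by omega), ext_of_le (by omega), hy]
  exact hTE

/-- extension of partial bands -/
theorem Part.extend {m q r g : ℕ} {L R : ℕ → ℝ} {a : ℕ → ℕ} {y y' : ℕ → ℝ} {v w : ℝ} {b : ℕ}
    (P : Part m q r y g L R a) (hy : ∀ h < g, y' h = y h) (hv : L g ≤ v) (hw : w ≤ R g)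
    (hM : 0 < (v - L g) + (R g - w)) (hb : b ≤ m) (hl : (v - L g) * m = b * ((v - L g) + (R g - w)))
    (hT : TE m q r (ext g L v) (ext g R w) y' g) :
    Part m q r y' (g + 1) (ext g L v) (ext g R w) (fun h => if h < g then a h else b) where
  mono := by
    intro h hh
    rcases (Nat.lt_succ_iff_lt_or_eq.mp hh) with h1 | rfl
    · rw [ext_of_le (by omega), ext_of_le (by omega)]
      exact P.mono h h1
    · rw [ext_of_le le_rfl, ext_succ]
      exact hv
  anti := by
    intro h hh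
    rcases (Nat.lt_succ_iff_lt_or_eq.mp hh) with h1 | rfl
    · rw [ext_of_le (by omega), ext_of_le (by omega)]
      exact P.anti h h1
    · rw [ext_of_le le_rfl, ext_succ]
      exact hw
  mpos := by
    intro h hh
    rcases (Nat.lt_succ_iff_lt_or_eq.mp hh) with h1 | rfl
    · rw [Mg_ext h1]
      exact P.mpos h h1
    · rw [Mg_ext_self]
      exact hM
  ale := by
    intro h hh
    rcases (Nat.lt_succ_iff_lt_or_eq.mp hh) with h1 | rfl
    · simp only [h1, if_true]
      exact P.ale h h1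
    · simpa using hb
  left := by
    intro h hh
    rcases (Nat.lt_succ_iff_lt_or_eq.mp hh) with h1 | rfl
    · simp only [h1, if_true]
      rw [Mg_ext h1, ext_of_le (by omega), ext_of_le (by omega)]
      exact P.left h h1
    · simp only [lt_irrefl, if_false]
      rw [Mg_ext_self, ext_succ, ext_of_le le_rfl]
      exact hl
  tuned := by
    intro h hh
    rcases (Nat.lt_succ_iff_lt_or_eq.mp hh) with h1 | rfl
    · exact TE_ext h1 (hy h h1) (P.tuned h h1)
    · exact hT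

/-- the equation of the new band from the equation of the step lemma -/
theorem TE_of_H {m q r g : ℕ} {L R : ℕ → ℝ} {y : ℕ → ℝ} {ρ M : ℝ} (hm : 1 ≤ m) (hq : 1 ≤ q)
    (h : H (L g) (R g) ρ M = (negMulLog (L g) - negMulLog (R g)) -
      (r * (negMulLog (L g + R 0 - R g + M) - negMulLog (L g + R 0 - R g)) + y g * M) /
        ((m * q : ℕ) : ℝ)) :
    TE m q r (ext g L (L g + ρ * M)) (ext g R (R g - (1 - ρ) * M)) y g := by
  have hmq : (0 : ℝ) < ((m * q : ℕ) : ℝ) := by
    have : 0 < m * q := Nat.mul_pos hm hq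
    exact_mod_cast this
  unfold TE
  rw [Xg_eq80, Xg_eq80, Mg_ext_self, ext_succ, ext_succ, ext_of_le le_rfl, ext_of_le le_rfl,
    ext_of_le (Nat.zero_le g)]
  have e1 : L g + ρ * M + R 0 - (R g - (1 - ρ) * M) = L g + R 0 - R g + M := by ring
  rw [e1]
  simp only [Fl_eq80]
  unfold H at h
  push_cast at *
  set N : ℝ := (m : ℝ) * q with hN
  set D : ℝ := r * (negMulLog (L g + R 0 - R g + M) - negMulLog (L g + R 0 - R g)) + y g * M with hD
  have h2 : N * (D / N) = D := by field_simp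
  have h3 : N * (negMulLog (L g + ρ * M) - negMulLog (R g - (1 - ρ) * M)) =
      N * (negMulLog (L g) - negMulLog (R g)) - D := by
    rw [h, mul_sub, h2]
  linear_combination (-1) * h3 + hD

end Pool.Agent.H80Band
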