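import Pool.Agent.H80Band.Exist

set_option autoImplicit false

namespace Pool.Agent.H80Band

open Real Filter Topology Finset Pool.Agent.H54Sharp

theorem W1 {a b τ : ℝ} (ha : 0 < a) (hab : a ≤ b) (h : ∀ p, a ≤ p → p ≤ b → τ ≤ negMulLog p) :
    τ * (log b - log a) ≤ -(Fl b - Fl a) := by
  rcases hab.eq_or_lt with rfl | hab
  · simp
  have hder : ∀ p, 0 < p → HasDerivAt (fun p => -Fl p - τ * log p) (-log p - τ / p) p := by
    intro p hp
    have h1 : HasDerivAt (fun p : ℝ => p * log p) (log p + 1) p := by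
      have := Real.hasDerivAt_mul_log hp.ne'
      exact this
    have h2 := ((h1.sub (hasDerivAt_id p)).neg).sub ((Real.hasDerivAt_log hp.ne').const_mul τ)
    refine (h2.congr_deriv ?_)
    rw [div_eq_mul_inv]
    ring
  obtain ⟨z, hz, e⟩ := exists_hasDerivAt_eq_slope (fun p => -Fl p - τ * log p)
    (fun p => -log p - τ / p) hab
    (fun p hp => (hder p (ha.trans_le hp.1)).continuousAt.continuousWithinAt)
    (fun p hp => hder p (ha.trans hp.1))
  have hz0 : 0 < z := ha.trans hz.1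
  have h1 : 0 ≤ -log z - τ / z := by
    have h2 := h z hz.1.le hz.2.le
    unfold negMulLog at h2
    have : τ / z ≤ -log z := by
      rw [div_le_iff₀ hz0]
      linarith
    linarith
  rw [e] at h1
  have h3 : 0 ≤ (-Fl b - τ * log b) - (-Fl a - τ * log a) := by
    have h4 : 0 < b - a := by linarith
    have := mul_nonneg h1 h4.le
    rwa [div_mul_cancel₀ _ h4.ne'] at this
  linarith

/-- `τ` times the integral of `1/p` over a band -/
theorem W2 {L R : ℕ → ℝ} {g : ℕ} {τ : ℝ} (hL : 0 < L g) (h1 : L g ≤ L (g + 1))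
    (h2 : L (g + 1) ≤ R (g + 1)) (h3 : R (g + 1) ≤ R g) (ha : τ ≤ negMulLog (L g))
    (hb : τ ≤ negMulLog (R g)) :
    τ * Wg L R g ≤ -((Fl (L (g + 1)) - Fl (L g)) + (Fl (R g) - Fl (R (g + 1)))) := by
  have hT : ∀ p, L g ≤ p → p ≤ R g → τ ≤ negMulLog p := by
    intro p hp1 hp2
    have h4 := Real.concaveOn_negMulLog.min_le_of_mem_Icc (x := L g) (y := R g) (z := p)
      (Set.mem_Ici.mpr hL.le) (Set.mem_Ici.mpr (hL.le.trans (hp1.trans hp2))) ⟨hp1, hp2⟩
    exact (le_min ha hb).trans h4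
  have w1 := W1 hL h1 fun p hp1 hp2 => hT p hp1 (hp2.trans (h2.trans h3))
  have w2 := W1 (hL.trans_le (h1.trans h2)) h3 fun p hp1 hp2 => hT p ((h1.trans h2).trans hp1) hp2
  unfold Wg
  linarith

theorem exp_bound {N r y c τ M A B W : ℝ} (hN : 0 < N) (hr : 0 ≤ r) (hM : 0 ≤ M) (hτ : 0 < τ)
    (hT : N * A + r * B = (-(N + r) + y) * M) (hB : B ≤ 0) (hW : τ * W ≤ -A)
    (hy : y ≤ c + log τ) :
    exp y * W ≤ exp c * M * (1 + (r + |c + log τ| + 1) / N) := by
  set z := c + log τ - y with hz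
  have hz0 : 0 ≤ z := by linarith
  have h1 : -A ≤ M * (1 + (r - y) / N) := by
    have h2 : N * (-A) ≤ (N + r - y) * M := by
      have := mul_nonpos_of_nonneg_of_nonpos hr hB
      linarith
    have h3 : M * (1 + (r - y) / N) = ((N + r - y) * M) / N := by
      field_simp
      ring
    rw [h3, le_div_iff₀ hN]
    linarith
  have h4 : exp y = exp c * τ * exp (-z) := by
    have : y = c + log τ + -z := by rw [hz]; ring
    rw [this, exp_add, exp_add, exp_log hτ]
  have h5 : exp y * W = exp c * exp (-z) * (τ * W) := by rw [h4]; ring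
  rw [h5]
  have h6 : τ * W ≤ M * (1 + (r - y) / N) := hW.trans h1
  have h7 : exp c * exp (-z) * (τ * W) ≤ exp c * exp (-z) * (M * (1 + (r - y) / N)) :=
    mul_le_mul_of_nonneg_left h6 (by positivity)
  refine h7.trans ?_
  have h8 : r - y = r - (c + log τ) + z := by rw [hz]; ring
  have h9 : exp (-z) * (1 + (r - y) / N) ≤ 1 + (r + |c + log τ| + 1) / N := by
    have e1 : exp (-z) ≤ 1 := by rw [exp_le_one_iff]; linarith
    have e2 : exp (-z) * z ≤ 1 := by
      have := add_one_le_exp z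
      rw [exp_neg, inv_mul_le_iff₀ (exp_pos z)]
      linarith
    have e0 : 0 < exp (-z) := exp_pos _
    have e3 : 1 + (r - y) / N ≤ 1 + (r + |c + log τ|) / N + z / N := by
      rw [h8, add_assoc, ← add_div]
      have := neg_abs_le (c + log τ)
      have h10 : (r - (c + log τ) + z) / N ≤ (r + |c + log τ| + z) / N :=
        div_le_div_of_nonneg_right (by linarith) hN.le
      linarith
    calc exp (-z) * (1 + (r - y) / N) ≤ exp (-z) * (1 + (r + |c + log τ|) / N + z / N) :=
          mul_le_mul_of_nonneg_left e3 e0.le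
      _ = exp (-z) * (1 + (r + |c + log τ|) / N) + (exp (-z) * z) / N := by ring
      _ ≤ 1 * (1 + (r + |c + log τ|) / N) + 1 / N := by
          apply add_le_add
          · exact mul_le_mul_of_nonneg_right e1 (by positivity)
          · exact div_le_div_of_nonneg_right e2 hN.le
      _ = _ := by ring
  calc exp c * exp (-z) * (M * (1 + (r - y) / N)) =
        exp c * M * (exp (-z) * (1 + (r - y) / N)) := by ring
    _ ≤ _ := mul_le_mul_of_nonneg_left h9 (by positivity)

/-- the sum rule -/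
theorem sum_rule {m q r J : ℕ} {L R : ℕ → ℝ} {y : ℕ → ℝ} (hmeet : L J = R J)
    (hT : ∀ g < J, ((m * q : ℕ) : ℝ) *
      ((Fl (L (g + 1)) - Fl (L g)) + (Fl (R g) - Fl (R (g + 1)))) +
      r * (Fl (Xg L R (g + 1)) - Fl (Xg L R g)) = (-((m * q + r : ℕ) : ℝ) + y g) * Mg L R g) :
    ∑ g ∈ range J, Mg L R g * y g =
      ((m * q + r : ℕ) : ℝ) * (negMulLog (L 0) - negMulLog (R 0)) := by
  have h1 : ∀ n ≤ J, ∑ g ∈ range n, Mg L R g * y g =
      ((m * q : ℕ) : ℝ) * ((Fl (L n) - Fl (L 0)) + (Fl (R 0) - Fl (R n))) +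
      r * (Fl (Xg L R n) - Fl (Xg L R 0)) +
      ((m * q + r : ℕ) : ℝ) * ((L n - L 0) + (R 0 - R n)) := by
    intro n
    induction n with
    | zero => intro _; simp
    | succ n ih =>
      intro hn
      rw [sum_range_succ, ih (by omega)]
      have h2 := hT n (by omega)
      have h3 : Mg L R n = (L (n + 1) - L n) + (R n - R (n + 1)) := rfl
      have h4 : ((m * q + r : ℕ) : ℝ) * Mg L R n =
          ((m * q + r : ℕ) : ℝ) * ((L (n + 1) - L n) + (R n - R (n + 1))) := by rw [h3]
      linear_combination (-1) * h2 + h4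
  rw [h1 J le_rfl, Xg_eq80, Xg_eq80, hmeet]
  have e1 : R J + R 0 - R J = R 0 := by ring
  have e2 : L 0 + R 0 - R 0 = L 0 := by ring
  rw [e1, e2]
  simp only [Fl_eq80]
  push_cast
  ring

end Pool.Agent.H80Band
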