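import Pool.Agent.H80Band.Exist

set_option autoImplicit false

namespace Pool.Agent.H80Band

open Real Filter Topology Finset Pool.Agent.H54Sharp

theorem tendsto_den (q r : ℕ) (hq : 1 ≤ q) (C : ℝ) :
    Tendsto (fun m : ℕ => C / ((m * q + r : ℕ) : ℝ)) atTop (𝓝 0) := by
  apply Tendsto.div_atTop tendsto_const_nhds
  apply tendsto_natCast_atTop_atTop.comp
  apply tendsto_atTop_mono (f := fun m : ℕ => m)
  · intro m
    nlinarith
  · exact tendsto_id

theorem tendsto_den' (q : ℕ) (hq : 1 ≤ q) (C : ℝ) :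
    Tendsto (fun m : ℕ => C / ((m * q : ℕ) : ℝ)) atTop (𝓝 0) := by
  simpa using tendsto_den q 0 hq C

/-- the difference of `-p log p` at two points close to points where it is equal -/
theorem near_eq {x z : ℝ} (h : negMulLog x = negMulLog z) {η : ℝ} (hη : 0 < η) :
    ∃ δ > 0, ∀ x' z' : ℝ, |x' - x| < δ → |z' - z| < δ → |negMulLog x' - negMulLog z'| < η := by
  have hc : Continuous (fun p : ℝ × ℝ => |negMulLog p.1 - negMulLog p.2|) :=
    ((Real.continuous_negMulLog.comp continuous_fst).sub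
      (Real.continuous_negMulLog.comp continuous_snd)).abs
  have h0 : (fun p : ℝ × ℝ => |negMulLog p.1 - negMulLog p.2|) (x, z) < η := by
    simp only [h, sub_self, abs_zero]
    exact hη
  obtain ⟨δ, hδ, hs⟩ := Metric.eventually_nhds_iff.mp (hc.continuousAt.eventually
    (gt_mem_nhds h0))
  refine ⟨δ, hδ, fun x' z' hx hz => ?_⟩
  have := hs (y := (x', z')) (by
    rw [Prod.dist_eq, Real.dist_eq, Real.dist_eq]
    exact max_lt hx hz)
  exact this

variable {L0 R0 : ℝ} {J : ℕ} {Lz Rz : ℕ → ℝ}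

theorem lev_ge (z0 : Lz 0 = L0) (zL : ∀ g < J, Lz g < Lz (g + 1)) : ∀ g ≤ J, L0 ≤ Lz g := by
  intro g
  induction g with
  | zero => intro _; exact z0.ge
  | succ g ih =>
    intro hg
    exact (ih (by omega)).trans (zL g (by omega)).le

theorem lev_le (z0' : Rz 0 = R0) (zR : ∀ g < J, Rz (g + 1) < Rz g) : ∀ g ≤ J, Rz g ≤ R0 := by
  intro g
  induction g with
  | zero => intro _; exact z0'.le
  | succ g ih =>
    intro hg
    exact (zR g (by omega)).le.trans (ih (by omega))

/-- **Induction.** -/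
theorem part_exist (hL0 : 0 < L0) (hLR : L0 < R0) (hR0 : R0 < 1) (hJ : 1 ≤ J)
    (z0 : Lz 0 = L0) (z0' : Rz 0 = R0)
    (zT : ∀ g ≤ J, negMulLog (Lz g) = negMulLog (Rz g))
    (zD : ∀ g ≤ J, Rz g - Lz g = (R0 - L0) * (1 - (g : ℝ) / J))
    (zL : ∀ g < J, Lz g < Lz (g + 1)) (zR : ∀ g < J, Rz (g + 1) < Rz g)
    (q r : ℕ) (hq : 1 ≤ q) (y : ℕ → ℝ) (C : ℝ) :
    ∀ g : ℕ, g + 1 ≤ J → ∀ d : ℝ, 0 < d → ∀ᶠ m : ℕ in atTop, ∀ R' : ℝ, R0 ≤ R' →
      R' ≤ R0 + C / ((m * q + r : ℕ) : ℝ) → R' < 1 → ∃ (L R : ℕ → ℝ) (a : ℕ → ℕ),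
        L 0 = L0 ∧ R 0 = R' ∧ Part m q r y g L R a ∧
        (∀ h ≤ g, |L h - Lz h| < d ∧ |R h - Rz h| < d) ∧
        (∀ h < g, |Mg L R h - (R0 - L0) / J| < d) := by
  have hJ' : (0 : ℝ) < J := by exact_mod_cast hJ
  intro g
  induction g with
  | zero =>
    intro _ d hd
    filter_upwards [(tendsto_den q r hq C).eventually (gt_mem_nhds hd)] with m hm R' h1 h2 _
    refine ⟨fun _ => L0, fun _ => R', fun _ => 0, rfl, rfl, ?_, ?_, ?_⟩
    · exact ⟨fun h hh => absurd hh (Nat.not_lt_zero h), fun h hh => absurd hh (Nat.not_lt_zero h),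
        fun h hh => absurd hh (Nat.not_lt_zero h), fun h hh => absurd hh (Nat.not_lt_zero h),
        fun h hh => absurd hh (Nat.not_lt_zero h), fun h hh => absurd hh (Nat.not_lt_zero h)⟩
    · intro h hh
      obtain rfl : h = 0 := by omega
      rw [z0, z0']
      constructor
      · simpa using hd
      · rw [abs_of_nonneg (by linarith)]
        linarith
    · exact fun h hh => absurd hh (Nat.not_lt_zero h)
  | succ g ih =>
    intro hg d hd
    have hgJ : g < J := by omega
    have hg1J : g + 1 < J := by omega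
    have a0 : 0 < Lz g := lt_of_lt_of_le hL0 (lev_ge z0 zL g hgJ.le)
    have aR : Rz g ≤ R0 := lev_le z0' zR g hgJ.le
    have a1 := zL g hgJ
    have a2 : Lz (g + 1) < Rz (g + 1) := by
      have h1 := zD (g + 1) hg1J.le
      have h2 : 0 < (R0 - L0) * (1 - ((g + 1 : ℕ) : ℝ) / J) := by
        apply mul_pos (by linarith)
        rw [sub_pos, div_lt_one hJ']
        exact_mod_cast hg1J
      linarith
    have a3 := zR g hgJ
    have hM0 : (Lz (g + 1) - Lz g) + (Rz g - Rz (g + 1)) = (R0 - L0) / J := by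
      have h1 := zD (g + 1) hg1J.le
      have h2 := zD g hgJ.le
      have h3 : (R0 - L0) * (1 - (g : ℝ) / J) - (R0 - L0) * (1 - ((g + 1 : ℕ) : ℝ) / J) =
          (R0 - L0) / J := by
        push_cast
        field_simp
        ring
      linarith
    obtain ⟨d', hd', η, hη, m₀, hm₀, hstep⟩ := step a0 a1 a2 a3 (zT g hgJ.le) (zT (g + 1) hg1J.le) hd
    obtain ⟨δ, hδ, hnear⟩ := near_eq (zT g hgJ.le) (half_pos hη)
    obtain ⟨B, hB⟩ := isCompact_Icc.exists_bound_of_continuousOn (s := Set.Icc (-(7 + d)) (7 + d))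
      (Real.continuous_negMulLog).continuousOn
    set d'' : ℝ := min (min d d') (min δ 1) with hd''
    have hd''0 : 0 < d'' := lt_min (lt_min hd hd') (lt_min hδ one_pos)
    have i1 : d'' ≤ d := (min_le_left _ _).trans (min_le_left _ _)
    have i2 : d'' ≤ d' := (min_le_left _ _).trans (min_le_right _ _)
    have i3 : d'' ≤ δ := (min_le_right _ _).trans (min_le_left _ _)
    have i4 : d'' ≤ 1 := (min_le_right _ _).trans (min_le_right _ _)
    have hM0' : (R0 - L0) / J ≤ 1 := by
      rw [div_le_one hJ']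
      have : (1 : ℝ) ≤ J := by exact_mod_cast hJ
      linarith
    filter_upwards [ih (by omega) d'' hd''0, eventually_ge_atTop m₀,
      (tendsto_den' q hq (r * (2 * |B|) + |y g| * (1 + d))).eventually
        (gt_mem_nhds (half_pos hη))] with m hm hmm hme R' h1 h2 h3
    obtain ⟨L, R, a, e0, e0', P, hcl, hclM⟩ := hm R' h1 h2 h3
    have hm1 : 1 ≤ m := hm₀.trans hmm
    have hmq : (0 : ℝ) < ((m * q : ℕ) : ℝ) := by
      have : 0 < m * q := Nat.mul_pos hm1 hq
      exact_mod_cast this
    obtain ⟨c1, c2⟩ := hcl g le_rfl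
    set X : ℝ := L g + R 0 - R g with hX
    have hXb : |X| ≤ 6 := by
      rw [abs_lt] at c1 c2
      have b1 : Lz g < 1 := by linarith
      rw [hX, e0', abs_le]
      constructor <;> linarith [c1.1, c1.2, c2.1, c2.2]
    set e : ℝ → ℝ := fun M => (negMulLog (L g) - negMulLog (R g)) -
      (r * (negMulLog (X + M) - negMulLog X) + y g * M) / ((m * q : ℕ) : ℝ) with he
    have hec : Continuous e := by
      rw [he]
      have k1 : Continuous (fun M : ℝ => negMulLog (X + M)) :=
        Real.continuous_negMulLog.comp (by fun_prop)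
      exact (continuous_const.sub ((((k1.sub continuous_const).const_mul _).add
        (continuous_const.mul continuous_id)).div_const _))
    have heb : ∀ M, 0 ≤ M → M ≤ (Lz (g + 1) - Lz g) + (Rz g - Rz (g + 1)) + d → |e M| ≤ η := by
      intro M hM0a hM1
      rw [hM0] at hM1
      have hMd : M ≤ 1 + d := by linarith
      rw [abs_le] at hXb
      have k1 : |negMulLog (X + M)| ≤ |B| := by
        have := hB (X + M) ⟨by linarith [hXb.1], by linarith [hXb.2]⟩
        rw [Real.norm_eq_abs] at this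
        exact this.trans (le_abs_self B)
      have k2 : |negMulLog X| ≤ |B| := by
        have := hB X ⟨by linarith [hXb.1], by linarith [hXb.2]⟩
        rw [Real.norm_eq_abs] at this
        exact this.trans (le_abs_self B)
      have k3 : |negMulLog (L g) - negMulLog (R g)| < η / 2 :=
        hnear _ _ (lt_of_lt_of_le c1 i3) (lt_of_lt_of_le c2 i3)
      have k4 : |r * (negMulLog (X + M) - negMulLog X) + y g * M| ≤
          r * (2 * |B|) + |y g| * (1 + d) := by
        refine (abs_add_le _ _).trans (add_le_add ?_ ?_)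
        · rw [abs_mul, Nat.abs_cast]
          apply mul_le_mul_of_nonneg_left _ (Nat.cast_nonneg r)
          refine (abs_sub _ _).trans ?_
          linarith
        · rw [abs_mul]
          apply mul_le_mul_of_nonneg_left _ (abs_nonneg _)
          rw [abs_of_nonneg hM0a]
          exact hMd
      have k5 : |(r * (negMulLog (X + M) - negMulLog X) + y g * M) / ((m * q : ℕ) : ℝ)| ≤
          η / 2 := by
        rw [abs_div, abs_of_pos hmq]
        exact (div_le_div_of_nonneg_right k4 hmq.le).trans hme.le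
      simp only [he]
      refine (abs_sub _ _).trans ?_
      linarith
    obtain ⟨b, hbm, M, hMpos, hMcl, hHe, hLn, hRn⟩ := hstep (L g) (R g) (lt_of_lt_of_le c1 i2)
      (lt_of_lt_of_le c2 i2) m hmm e hec heb
    rw [hM0] at hMcl
    have hm' : (0 : ℝ) < m := by exact_mod_cast hm1
    set ρ : ℝ := (b : ℝ) / m with hρ
    have hρ0 : 0 ≤ ρ := by positivity
    have hρ1 : ρ ≤ 1 := by
      rw [hρ, div_le_one hm']
      exact_mod_cast hbm
    have hMM : (L g + ρ * M - L g) + (R g - (R g - (1 - ρ) * M)) = M := by ring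
    refine ⟨ext g L (L g + ρ * M), ext g R (R g - (1 - ρ) * M), fun h => if h < g then a h else b,
      ?_, ?_, ?_, ?_, ?_⟩
    · rw [ext_of_le (Nat.zero_le g)]; exact e0
    · rw [ext_of_le (Nat.zero_le g)]; exact e0'
    · refine P.extend (y' := y) (fun _ _ => rfl) ?_ ?_ ?_ hbm ?_ ?_
      · have := mul_nonneg hρ0 hMpos.le
        linarith
      · have := mul_nonneg (sub_nonneg.mpr hρ1) hMpos.le
        linarith
      · rw [hMM]; exact hMpos
      · rw [hMM]
        have : ρ * m = b := by rw [hρ]; field_simp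
        linear_combination M * this
      · exact TE_of_H hm1 hq hHe
    · intro h hh
      rcases Nat.lt_or_ge g h with h4 | h4
      · obtain rfl : h = g + 1 := by omega
        rw [ext_succ, ext_succ]
        exact ⟨hLn, hRn⟩
      · rw [ext_of_le h4, ext_of_le h4]
        obtain ⟨c3, c4⟩ := hcl h h4
        exact ⟨lt_of_lt_of_le c3 i1, lt_of_lt_of_le c4 i1⟩
    · intro h hh
      rcases (Nat.lt_succ_iff_lt_or_eq.mp hh) with h4 | rfl
      · rw [Mg_ext h4]
        exact lt_of_lt_of_le (hclM h h4) i1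
      · rw [Mg_ext_self, hMM]
        exact hMcl

end Pool.Agent.H80Band
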