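import Mathlib

set_option autoImplicit false

namespace Pool.Agent.H80Band

open Real Set

/-- difference of `-p log p` at the two ends of the gap of length `t` around `c` -/
noncomputable def G (c ρ t : ℝ) : ℝ := negMulLog (c - ρ * t) - negMulLog (c + (1 - ρ) * t)

/-- derivative of `G` in `t`, without the constant `1` -/
noncomputable def K (c ρ t : ℝ) : ℝ := ρ * log (c - ρ * t) + (1 - ρ) * log (c + (1 - ρ) * t)

theorem hasDerivAt_G {c ρ t : ℝ} (h1 : 0 < c - ρ * t) (h2 : 0 < c + (1 - ρ) * t) :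
    HasDerivAt (G c ρ) (1 + K c ρ t) t := by
  have e1 : HasDerivAt (fun t : ℝ => c - ρ * t) (-ρ) t := by
    simpa using ((hasDerivAt_id t).const_mul ρ).const_sub c
  have e2 : HasDerivAt (fun t : ℝ => c + (1 - ρ) * t) (1 - ρ) t := by
    simpa using ((hasDerivAt_id t).const_mul (1 - ρ)).const_add c
  have e3 := (Real.hasDerivAt_negMulLog h1.ne').comp t e1
  have e4 := (Real.hasDerivAt_negMulLog h2.ne').comp t e2
  have e5 := e3.sub e4
  refine (e5.congr_deriv ?_)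
  unfold K
  ring

theorem continuous_G (c ρ : ℝ) : Continuous (G c ρ) := by
  unfold G
  exact (Real.continuous_negMulLog.comp (by fun_prop)).sub
    (Real.continuous_negMulLog.comp (by fun_prop))

theorem K_gt {c ρ D : ℝ} (hρ0 : 0 < ρ) (hρ1 : ρ < 1) (hc : 0 < c - ρ * D) {t₁ t₂ t₃ : ℝ}
    (h0 : 0 ≤ t₁) (h12 : t₁ < t₂) (h23 : t₂ < t₃) (h3 : t₃ ≤ D) {z : ℝ}
    (h1 : z ≤ K c ρ t₁) (h3' : z ≤ K c ρ t₃) : z < K c ρ t₂ := by
  have hp : ∀ t, 0 ≤ t → t ≤ D → 0 < c - ρ * t := fun t _ ht => by nlinarith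
  have hq : ∀ t, 0 ≤ t → t ≤ D → 0 < c + (1 - ρ) * t := fun t ht0 ht => by nlinarith [hp t ht0 ht]
  have h13 : 0 < t₃ - t₁ := by linarith
  set w : ℝ := (t₂ - t₁) / (t₃ - t₁) with hw
  have hw0 : 0 < w := div_pos (by linarith) h13
  have hw1 : w < 1 := by rw [hw, div_lt_one h13]; linarith
  have ht : t₂ = (1 - w) * t₁ + w * t₃ := by
    rw [hw]; field_simp; ring
  have s := strictConcaveOn_log_Ioi.2
  have a1 := s (x := c - ρ * t₁) (mem_Ioi.mpr (hp _ h0 (by linarith)))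
    (y := c - ρ * t₃) (mem_Ioi.mpr (hp _ (by linarith) h3)) (by
      intro h
      have : ρ * (t₃ - t₁) = 0 := by linarith
      have h' := mul_pos hρ0 h13
      linarith) (a := 1 - w) (b := w) (by linarith) hw0 (by ring)
  have a2 := s (x := c + (1 - ρ) * t₁) (mem_Ioi.mpr (hq _ h0 (by linarith)))
    (y := c + (1 - ρ) * t₃) (mem_Ioi.mpr (hq _ (by linarith) h3)) (by
      intro h
      have : (1 - ρ) * (t₃ - t₁) = 0 := by linarith
      have h' := mul_pos (sub_pos.mpr hρ1) h13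
      linarith) (a := 1 - w) (b := w) (by linarith) hw0 (by ring)
  simp only [smul_eq_mul] at a1 a2
  have e1 : (1 - w) * (c - ρ * t₁) + w * (c - ρ * t₃) = c - ρ * t₂ := by rw [ht]; ring
  have e2 : (1 - w) * (c + (1 - ρ) * t₁) + w * (c + (1 - ρ) * t₃) = c + (1 - ρ) * t₂ := by
    rw [ht]; ring
  rw [e1] at a1
  rw [e2] at a2
  have b1 := mul_lt_mul_of_pos_left a1 hρ0
  have b2 := mul_lt_mul_of_pos_left a2 (sub_pos.mpr hρ1)
  unfold K at *
  have c1 := mul_le_mul_of_nonneg_left h1 (sub_pos.mpr hw1).le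
  have c2 := mul_le_mul_of_nonneg_left h3' hw0.le
  nlinarith

/-- strict sign change at the middle zero -/
theorem G_sign {c ρ D t₀ : ℝ} (hρ0 : 0 < ρ) (hρ1 : ρ < 1) (hc : 0 < c - ρ * D) (h0 : 0 < t₀)
    (h0D : t₀ < D) (hG0 : G c ρ t₀ = 0) (hGD : G c ρ D = 0) :
    (∀ t, 0 < t → t < t₀ → G c ρ t < 0) ∧ (∀ t, t₀ < t → t < D → 0 < G c ρ t) := by
  have hp : ∀ t, 0 ≤ t → t ≤ D → 0 < c - ρ * t := fun t _ ht => by nlinarith
  have hq : ∀ t, 0 ≤ t → t ≤ D → 0 < c + (1 - ρ) * t := fun t ht0 ht => by nlinarith [hp t ht0 ht]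
  have hG00 : G c ρ 0 = 0 := by simp [G]
  have mvt : ∀ x y, 0 ≤ x → x < y → y ≤ D → ∃ z, x < z ∧ z < y ∧
      1 + K c ρ z = (G c ρ y - G c ρ x) / (y - x) := by
    intro x y hx hxy hy
    obtain ⟨z, hz, h⟩ := exists_hasDerivAt_eq_slope (G c ρ) (fun t => 1 + K c ρ t) hxy
      (continuous_G c ρ).continuousOn fun t ht =>
        hasDerivAt_G (hp t (hx.trans ht.1.le) (ht.2.le.trans hy))
          (hq t (hx.trans ht.1.le) (ht.2.le.trans hy))
    exact ⟨z, hz.1, hz.2, h⟩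
  constructor
  · intro t ht ht0
    by_contra hcon
    push Not at hcon
    obtain ⟨z1, a1, b1, e1⟩ := mvt 0 t le_rfl ht (by linarith)
    obtain ⟨z2, a2, b2, e2⟩ := mvt t t₀ ht.le ht0 h0D.le
    obtain ⟨z3, a3, b3, e3⟩ := mvt t₀ D h0.le h0D le_rfl
    rw [hG00, sub_zero, sub_zero] at e1
    rw [hG0] at e2 e3
    rw [hGD] at e3
    have f1 : 0 ≤ 1 + K c ρ z1 := by rw [e1]; exact div_nonneg hcon ht.le
    have f2 : 1 + K c ρ z2 ≤ 0 := by
      rw [e2]; exact div_nonpos_of_nonpos_of_nonneg (by linarith) (by linarith)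
    have f3 : 1 + K c ρ z3 = 0 := by rw [e3]; simp
    have := K_gt hρ0 hρ1 hc a1.le (b1.trans a2) (b2.trans a3) b3.le (z := -1) (by linarith)
      (by linarith)
    linarith
  · intro t ht0 htD
    by_contra hcon
    push Not at hcon
    obtain ⟨z1, a1, b1, e1⟩ := mvt 0 t₀ le_rfl h0 h0D.le
    obtain ⟨z2, a2, b2, e2⟩ := mvt t₀ t h0.le ht0 htD.le
    obtain ⟨z3, a3, b3, e3⟩ := mvt t D (by linarith) htD le_rfl
    rw [hG00, sub_zero, sub_zero, hG0] at e1
    rw [hG0] at e2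
    rw [hGD] at e3
    have f1 : 1 + K c ρ z1 = 0 := by rw [e1]; simp
    have f2 : 1 + K c ρ z2 ≤ 0 := by
      rw [e2]; exact div_nonpos_of_nonpos_of_nonneg (by linarith) (by linarith)
    have f3 : 0 ≤ 1 + K c ρ z3 := by
      rw [e3]; exact div_nonneg (by linarith) (by linarith)
    have := K_gt hρ0 hρ1 hc a1.le (b1.trans a2) (b2.trans a3) b3.le (z := -1) (by linarith)
      (by linarith)
    linarith

end Pool.Agent.H80Band
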